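import Pool.Agent.K7.H75.DP.FE

/-!
# Linear relations of large height between the ordinates at the places `n, 2n, …, kn`

Let `0 < γ_1 ≤ γ_2 ≤ …` be the ordinates of the nontrivial zeros of the zeta function, with
multiplicity.  No hypothesis is assumed.  For almost all `n`, with a power saving in the number of the
exceptions, the numbers `γ_n, γ_{2n}, …, γ_{kn}` satisfy no nontrivial linear relation with integer
coefficients of size up to a power of `n`.  More generally, let `m_1(n), …, m_k(n)` be sequences of places
with `m_j(n) = α_j n^{d_j} + O(n^{d_j - κ})`, where the pairs `(α_j, d_j)` of positive real numbers are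
distinct, for example `⌊√n⌋, n, 2n, n^2 + n`.  Then there is `δ > 0` such that for all but `N^{1-δ}` of the
`n ≤ N` every linear relation with integer coefficients of size at most `N^δ` between the ordinates at the
places which follow `m_1(n), …, m_k(n)` at distance at most `N^δ` splits: the sum of the coefficients
belonging to the places which follow `m_j(n)` is `0`, for every `j`.  The same holds for the relations
which are only satisfied up to an error `N^δ`.

Idea of the proof.  By the Riemann–von Mangoldt formula `γ_m = 2π m w(log m - 1) + O(log m)` with the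
function `w` defined by `1 / w(z) - log w(z) = z`.  So the combinations of the ordinates at places of the
same exponent `d` are `n^d` times a combination `Φ` of translates `w(z + log α_j)`, `z = d log n - 1`, up to
a smaller power of `n`.  The derivatives satisfy `z^{s+1} w^{(s)}(z) → (-1)^s s!`.  By Taylor's formula and
two determinants (of Vandermonde and of Pascal) one of the derivatives of order less than `k` of such a
combination is at least `c z^{-2k}` times the largest coefficient, for all large `z`.  Therefore `|Φ|` can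
be smaller than a negative power of `N` only in a few very short intervals, and one sums over all
coefficient vectors.
-/

set_option autoImplicit false

open Filter

namespace Pool.Agent.Results.MP_0ec205_nt.DilatedPlaces

/-- multiplicity of `s` as a zero of the Riemann zeta function (order of vanishing at `s`) -/
noncomputable def zmult (s : ℂ) : ℕ := analyticOrderNatAt riemannZeta s

/-- the number of nontrivial zeros of `ζ` with ordinate in `(0, t]`, with multiplicity -/
noncomputable def NZ (t : ℝ) : ℕ :=
  ∑ᶠ s ∈ {s : ℂ | riemannZeta s = 0 ∧ 0 < s.re ∧ s.re < 1 ∧ 0 < s.im ∧ s.im ≤ t}, zmult s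

/-- for `n ≥ 1`: the `n`-th positive ordinate `γ n` of a nontrivial zero of `ζ`, the ordinates being
listed in nondecreasing order and repeated according to multiplicity -/
noncomputable def γ (n : ℕ) : ℝ := sInf {t : ℝ | n ≤ NZ t}

/-- **Theorem** (no hypothesis).  Let `(α_j, d_j)`, `1 ≤ j ≤ k`, be distinct pairs of positive real
numbers and let `κ > 0` and `B` be real.  There is `δ > 0` such that for all large `N` and all sequences
`m_1, …, m_k` of natural numbers with `|m_j(n) - α_j n^{d_j}| ≤ B n^{d_j - κ}` for `1 ≤ n ≤ N`, the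
following holds for all but at most `N^{1-δ}` of the `n ≤ N`: if the natural number `S` and the integers
`c_{j,s}`, `1 ≤ j ≤ k`, `0 ≤ s < S`, are at most `N^δ` in absolute value and
`|∑_j ∑_{s < S} c_{j,s} γ_{m_j(n)+s}| ≤ N^δ`, then `∑_{s < S} c_{j,s} = 0` for every `j`. -/
theorem result (k : ℕ) (α d : Fin k → ℝ) (hα : ∀ j, 0 < α j) (hd : ∀ j, 0 < d j)
    (hne : ∀ i j, α i = α j → d i = d j → i = j) (κ B : ℝ) (hκ : 0 < κ) :
    ∃ δ : ℝ, 0 < δ ∧ ∀ᶠ N : ℕ in atTop, ∀ m : Fin k → ℕ → ℕ,
    (∀ j n, 1 ≤ n → n ≤ N → |(m j n : ℝ) - α j * (n : ℝ) ^ d j| ≤ B * (n : ℝ) ^ (d j - κ)) →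
    ({n : ℕ | 1 ≤ n ∧ n ≤ N ∧ ∃ (S : ℕ) (c : Fin k → ℕ → ℤ), (S : ℝ) ≤ (N : ℝ) ^ δ ∧
      (∀ j s, |(c j s : ℝ)| ≤ (N : ℝ) ^ δ) ∧
      |∑ j, ∑ s ∈ Finset.range S, (c j s : ℝ) * γ (m j n + s)| ≤ (N : ℝ) ^ δ ∧
      ∃ j, ∑ s ∈ Finset.range S, c j s ≠ 0}.ncard : ℝ) ≤ (N : ℝ) ^ (1 - δ) :=
  Pool.Agent.K7.H75.DP.dil2 k α d hα hd hne κ B hκ

end Pool.Agent.Results.MP_0ec205_nt.DilatedPlaces
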