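import Pool.Agent.K7.H75.DQ.D

/-!
# Relations between ordinates at dilated places: every large place, and almost every orbit

Let `0 < γ_1 ≤ γ_2 ≤ …` be the ordinates of the nontrivial zeros of the zeta function, with
multiplicity, and let `(α_j, d_j)`, `1 ≤ j ≤ k`, be distinct pairs of positive reals.  No hypothesis is
assumed.  We consider the relations with integer coefficients `c_{j,s}` between the ordinates at the
places `m_j + s`, `0 ≤ s < S`, where `m_j = α_j y^{d_j} (1 + O(y^{-κ}))`, for example the places which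
follow `y, 2y, …, ky` or `y, y^2, …, y^k`; `S` and the coefficients may be as large as `y^δ`, and the
relation need only be satisfied up to the error `y^δ`.

1. For EVERY large real `y` the sums `C_j = ∑_s c_{j,s}` vanish for all such relations with
   `|C_j| ≤ H`.  For instance `γ_n, γ_{2n}, …, γ_{kn}` satisfy no nontrivial relation with integer
   coefficients of absolute value at most `H`, for all `n ≥ n_0(k, H)` without exception.
2. Without any bound for the `C_j` the same holds at the places given by `y = f_n(x)`, for all large `n`,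
   with `δ = δ(x) > 0`, for all real `x` with the exception of a set of HAUSDORFF DIMENSION ZERO.  Here
   `f_n` is any sequence of positive functions such that `f_n(x) / x` is nondecreasing and `f_n(x)` grows
   faster than every power of `n`, for example `f_n(x) = x^n`, `n! x`, `x^{n^2}`, or the iterates
   `g(g(⋯ g(x)))` of a map `g` with `g(x) > x` and `g(x) / x` nondecreasing.  So for all `x > 1` outside a
   set of dimension zero there is `δ > 0` such that for all large `n` the ordinates at the places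
   `⌊x^n⌋, ⌊2 x^n⌋, …, ⌊k x^n⌋` (or `⌊x^n⌋, ⌊x^{2n}⌋, …, ⌊x^{kn}⌋`) satisfy no nontrivial relation with
   integer coefficients of absolute value at most `x^{δ n}`.

(The number of the exceptional places `n ≤ N` in our `DilatedPlaces` is at most `N^{1-δ}`, which gives
only exceptional sets of dimension at most `1 - δ` for `x`.)

Idea of the proof.  By the Riemann–von Mangoldt formula `γ_m = 2π m w(log m - 1) + O(log m)` with the
function `w` defined by `1 / w(z) - log w(z) = z`.  The combination of the ordinates at the places with the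
largest exponent `d` with `C_j ≠ 0` is `2π y^d Φ(z)`, `z = d log y - 1`, up to a smaller power of `y`, where
`Φ(z) = ∑ C_j α_j w(z + log α_j)`.  Let `s` be the least number such that `A = ∑ C_j α_j (log α_j)^s ≠ 0`; then
`z^{s+1} Φ(z) → (-1)^s A`, so `Φ(z)` is not small if `z` is large in terms of `H`.  For unbounded `C_j` the set of
the `z ≤ Z` at which `Φ` is smaller than a power of `1/y` is covered by `O(Z^{2k+1})` very short intervals,
for each of the `y^{2kδ}` vectors `C`.  So the bad `y` are contained in `y^{O(δ)}` intervals of length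
`y^{1-σ}` with `σ > 0` independent of `δ`, which gives exceptional sets of `x` of dimension `O(δ)`.
-/

set_option autoImplicit false

open Filter

namespace Pool.Agent.Results.MP_0ec205_nt.EveryLargePlace

/-- multiplicity of `s` as a zero of the Riemann zeta function (order of vanishing at `s`) -/
noncomputable def zmult (s : ℂ) : ℕ := analyticOrderNatAt riemannZeta s

/-- the number of nontrivial zeros of `ζ` with ordinate in `(0, t]`, with multiplicity -/
noncomputable def NZ (t : ℝ) : ℕ :=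
  ∑ᶠ s ∈ {s : ℂ | riemannZeta s = 0 ∧ 0 < s.re ∧ s.re < 1 ∧ 0 < s.im ∧ s.im ≤ t}, zmult s

/-- for `n ≥ 1`: the `n`-th positive ordinate `γ n` of a nontrivial zero of `ζ`, the ordinates being
listed in nondecreasing order and repeated according to multiplicity -/
noncomputable def γ (n : ℕ) : ℝ := sInf {t : ℝ | n ≤ NZ t}

/-- The integers `c j s`, `s < S`, are the coefficients of a relation of height at most `y ^ δ`, satisfied
up to the error `y ^ δ`, between the ordinates at the places `m j + s`, `s < S ≤ y ^ δ`, for some `m j` with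
`|m j - α j * y ^ d j| ≤ B * y ^ (d j - κ)`. -/
def Relation {k : ℕ} (α d : Fin k → ℝ) (κ B δ y : ℝ) (S : ℕ) (c : Fin k → ℕ → ℤ) : Prop :=
  (S : ℝ) ≤ y ^ δ ∧ (∀ j s, |(c j s : ℝ)| ≤ y ^ δ) ∧
    ∃ m : Fin k → ℕ, (∀ j, |(m j : ℝ) - α j * y ^ d j| ≤ B * y ^ (d j - κ)) ∧
      |∑ j, ∑ s ∈ Finset.range S, (c j s : ℝ) * γ (m j + s)| ≤ y ^ δ

/-- the sum of the coefficients of the class `j` -/
def classSum {k : ℕ} (S : ℕ) (c : Fin k → ℕ → ℤ) (j : Fin k) : ℤ := ∑ s ∈ Finset.range S, c j s

/-- the functions `f n` are positive on `(a, ∞)`, `a ≥ 0`, and `f n x / x` is nondecreasing there -/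
def Starshaped (a : ℝ) (f : ℕ → ℝ → ℝ) : Prop :=
  0 ≤ a ∧ ∀ n : ℕ, ∀ x y : ℝ, a < x → x ≤ y → 0 < f n x ∧ f n x / x ≤ f n y / y

/-- for each `x > a` the exponent of convergence of the sequence `f n x` is zero -/
def ExpZero (a : ℝ) (f : ℕ → ℝ → ℝ) : Prop :=
  ∀ x : ℝ, a < x → ∀ t : ℝ, 0 < t → Summable (fun n : ℕ => (f n x) ^ (-t))

/-- **Theorem** (no hypothesis).

(1) Let `(α_j, d_j)`, `1 ≤ j ≤ k`, be distinct pairs of positive reals, `κ > 0` and `B` real.  There is
`δ > 0` such that for each `H` and for EVERY real `y ≥ y_0(H)`: if `c` is a relation of height at most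
`y ^ δ` at the places which follow numbers `m_j` with `|m_j - α_j y^{d_j}| ≤ B y^{d_j - κ}` (`Relation`) and the
class sums of `c` are at most `H` in absolute value, then the class sums are all zero.

(2) Let `𝒬` be a countable set of positive reals, and let `f` be starshaped functions on `(a, ∞)` of
exponent of convergence zero.  There is a set `E` of Hausdorff dimension zero such that for each `x > a`
outside `E`, all distinct pairs `(α_j, d_j)` of members of `𝒬`, `1 ≤ j ≤ k`, all `κ > 0` and `B`, there are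
`δ > 0` and `n_0` such that for all `n ≥ n_0` the class sums of all relations of height at most `y ^ δ`,
`y = f_n(x)`, are zero.

(3) The functions `v_n x` are starshaped on `(0, ∞)`, of exponent zero if `v_n > 0` and the sums of
`v_n^{-t}`, `t > 0`, converge; the functions `x^{v_n}`, `v_n ≥ 1`, on `(1, ∞)`, if the sums of
`exp (-t v_n)` converge for `t > 0`; and the iterates of a map `g` with `g(x) > x` for `x > a ≥ 0` and
`g(x) / x` nondecreasing on `(a, ∞)`. -/
theorem result :
    (∀ (k : ℕ) (α d : Fin k → ℝ), (∀ j, 0 < α j) → (∀ j, 0 < d j) →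
      (∀ i j, α i = α j → d i = d j → i = j) → ∀ κ B : ℝ, 0 < κ →
      ∃ δ : ℝ, 0 < δ ∧ ∀ H : ℝ, ∃ y₀ : ℝ, ∀ y : ℝ, y₀ ≤ y → ∀ (S : ℕ) (c : Fin k → ℕ → ℤ),
        Relation α d κ B δ y S c → (∀ j, |(classSum S c j : ℝ)| ≤ H) → ∀ j, classSum S c j = 0) ∧
    (∀ 𝒬 : Set ℝ, 𝒬.Countable → (∀ q ∈ 𝒬, 0 < q) → ∀ (a : ℝ) (f : ℕ → ℝ → ℝ), Starshaped a f → ExpZero a f →
      ∃ E : Set ℝ, dimH E = 0 ∧ ∀ x : ℝ, a < x → x ∉ E → ∀ (k : ℕ) (α d : Fin k → ℝ),
        (∀ j, α j ∈ 𝒬) → (∀ j, d j ∈ 𝒬) → (∀ i j, α i = α j → d i = d j → i = j) → ∀ κ B : ℝ, 0 < κ →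
        ∃ δ : ℝ, 0 < δ ∧ ∃ n₀ : ℕ, ∀ n : ℕ, n₀ ≤ n → ∀ (S : ℕ) (c : Fin k → ℕ → ℤ),
          Relation α d κ B δ (f n x) S c → ∀ j, classSum S c j = 0) ∧
    (∀ v : ℕ → ℝ, (∀ n, 0 < v n) → (∀ t : ℝ, 0 < t → Summable (fun n : ℕ => (v n) ^ (-t))) →
      Starshaped 0 (fun n x => v n * x) ∧ ExpZero 0 (fun n x => v n * x)) ∧
    (∀ v : ℕ → ℝ, (∀ n, 1 ≤ v n) → (∀ t : ℝ, 0 < t → Summable fun n : ℕ => Real.exp (-(t * v n))) →
      Starshaped 1 (fun n x => x ^ (v n)) ∧ ExpZero 1 (fun n x => x ^ (v n))) ∧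
    (∀ (a : ℝ) (g : ℝ → ℝ), 0 ≤ a → (∀ x y : ℝ, a < x → x ≤ y → g x / x ≤ g y / y) → (∀ x : ℝ, a < x → x < g x) →
      Starshaped a (fun n x => g^[n] x) ∧ ExpZero a (fun n x => g^[n] x)) := by
  refine ⟨fun k α d hα hd hne κ B hκ => ?_, fun 𝒬 hQ hQ0 a f hf hv => ?_,
    fun v hv h => Pool.Agent.R482.ST.ex_mul v 0 hv h, Pool.Agent.R482.ST.ex_pow,
    Pool.Agent.R482.ST.ex_orbit⟩
  · obtain ⟨δ, hδ, h⟩ := Pool.Agent.K7.H75.DQ.every α d hα hd hne B hκ
    refine ⟨δ, hδ, fun H => ?_⟩
    obtain ⟨y₀, hy₀⟩ := (h H).exists_forall_of_atTop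
    refine ⟨y₀, fun y hy S c hR hH => ?_⟩
    obtain ⟨hS, hc, m, hm, hsum⟩ := hR
    exact hy₀ y hy m S c hm hS hc hH hsum
  · obtain ⟨E, hE, h⟩ := Pool.Agent.K7.H75.DQ.zero_dim_all 𝒬 hQ hQ0 hf hv
    refine ⟨E, hE, fun x hx hxE k α d hα hd hne κ B hκ => ?_⟩
    obtain ⟨δ, hδ, n₀, hn₀⟩ := h x hx hxE k α d hα hd hne κ B hκ
    refine ⟨δ, hδ, n₀, fun n hn S c hR => ?_⟩
    obtain ⟨hS, hc, m, hm, hsum⟩ := hR
    by_contra hcon
    push Not at hcon
    exact hn₀ n hn ⟨m, S, c, hm, hS, hc, hsum, hcon⟩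

end Pool.Agent.Results.MP_0ec205_nt.EveryLargePlace
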