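import Pool.Agent.K7.H54.AF.Mtd

/-!
# The affine copies of the ordinates of the zeta zeros are linearly independent

Let `0 < γ_1 ≤ γ_2 ≤ …` be the ordinates of the nontrivial zeros of `ζ`, with multiplicity, and let
`N_d (t) = #{n : lam * γ_n + c ≤ t}` for `d = (lam, c)`, `lam > 0`, be the counting function of the
image of the ordinates under `x ↦ lam x + c`. For finitely many different `d` and windows of `a`
mean spacings, `h = 2πa / log T`, the numbers of points `N_d (t + h) - N_d (t)` are, in `L¹` mean over
`5T/4 ≤ t ≤ 7T/4`, linearly independent together with the constant `1`, with the true order of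
magnitude: the mean of `|∑ w_d (N_d (t + h) - N_d (t)) - b|` is at least
`c √(log a) √(∑ w_d²)` for all real `w_d`, `b`, and at most `√(log a) √(∑ w_d²)` for
`b = ∑ w_d a / lam_d`. Therefore two different finite families (with repetitions) of affine
copies of the ordinates cannot be matched: a positive proportion of the points would have to be left
out or moved by more than `κ / log T`. No hypothesis is assumed.

The starting result `AffineCopies` concerns two copies (`γ` and `lam γ + c`) with opposite weights.
Here the number of copies and the weights are arbitrary, and the mean grows with the window.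
The proof uses its library (Selberg's approximation of `N (t + h) - N (t)` by prime sums in mean
square, with his density theorem, and the bounds for the correlation of the prime sums of two copies).
-/

set_option autoImplicit false

open Filter

namespace Pool.Agent.Results.MP_0ec205_nt.IndependentAffineCopies

/-- multiplicity of `s` as a zero of the Riemann zeta function (order of vanishing at `s`) -/
noncomputable def zmult (s : ℂ) : ℕ := analyticOrderNatAt riemannZeta s

/-- the number of nontrivial zeros of `ζ` with ordinate in `(0, t]`, with multiplicity -/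
noncomputable def NZ (t : ℝ) : ℕ :=
  ∑ᶠ s ∈ {s : ℂ | riemannZeta s = 0 ∧ 0 < s.re ∧ s.re < 1 ∧ 0 < s.im ∧ s.im ≤ t}, zmult s

/-- for `n ≥ 1`: the `n`-th positive ordinate `γ n` of a nontrivial zero of `ζ`, the ordinates being
listed in nondecreasing order and repeated according to multiplicity -/
noncomputable def γ (n : ℕ) : ℝ := sInf {t : ℝ | n ≤ NZ t}

/-- for `d = (lam, c)` with `lam > 0`: the number of the `n ≥ 1` with
`t < lam * γ n + c ≤ t + h`, the number of points of an affine copy of the ordinates in a window -/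
noncomputable def win (d : ℝ × ℝ) (h t : ℝ) : ℝ :=
  (NZ ((t + h - d.2) / d.1) : ℝ) - NZ ((t - d.2) / d.1)

/-- the point with index `(i, n)` of the family of the affine copies `lam_i γ + c_i`,
where `F i = (lam_i, c_i)` -/
noncomputable def pos {m : ℕ} (F : Fin m → ℝ × ℝ) (x : Fin m × ℕ) : ℝ := (F x.1).1 * γ x.2 + (F x.1).2

/-- the indices `(i, n)`, `n ≥ 1`, of the points up to `T` -/
def pts {m : ℕ} (F : Fin m → ℝ × ℝ) (T : ℝ) : Set (Fin m × ℕ) := {x | 1 ≤ x.2 ∧ pos F x ≤ T}

/-- **Theorem.**

* For every finite set `D` of pairs `d = (lam_d, c_d)`, `lam_d > 0`, for all large `a`, for all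
  large `T` (depending on `a`) and for all real `w d`, `b`, with `h = 2πa / log T`, the integral over
  `[5T/4, 7T/4]` of `|∑ w d (number of the n with t < lam_d γ n + c_d ≤ t + h) - b|` is at least
  `√(log a) √(∑ (w d)²) T / (10⁴ (#D)²)`, and for `b = ∑ w d a / lam_d` it is at most
  `√(log a) √(∑ (w d)²) T`.
* If two finite families `F`, `G` of increasing affine maps are different as multisets, there is
  `κ > 0` such that for all large `T` every partial matching (a set `S` of points of the copies in `F`,
  and an injective map `σ` from `S` to the points of the copies in `G`) between the points up to `T`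
  which moves no point by more than `κ / log T` leaves out at least `κ T log T` points. -/
theorem result :
    (∀ D : Finset (ℝ × ℝ), (∀ d ∈ D, 0 < d.1) → ∀ᶠ a : ℝ in atTop, ∀ᶠ T : ℝ in atTop,
      ∀ w : ℝ × ℝ → ℝ,
        (∀ b : ℝ, Real.sqrt (Real.log a) * Real.sqrt (∑ d ∈ D, w d ^ 2) * T /
            (10000 * D.card ^ 2) ≤
          ∫ t in (5 / 4 * T)..(7 / 4 * T),
            |∑ d ∈ D, w d * win d (2 * Real.pi * a / Real.log T) t - b|) ∧
        ∫ t in (5 / 4 * T)..(7 / 4 * T),
            |∑ d ∈ D, w d * win d (2 * Real.pi * a / Real.log T) t - ∑ d ∈ D, w d * (a / d.1)| ≤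
          Real.sqrt (Real.log a) * Real.sqrt (∑ d ∈ D, w d ^ 2) * T) ∧
    ∀ (m n : ℕ) (F : Fin m → ℝ × ℝ) (G : Fin n → ℝ × ℝ), (∀ i, 0 < (F i).1) → (∀ j, 0 < (G j).1) →
      (∃ d : ℝ × ℝ, (Finset.univ.filter fun i => F i = d).card ≠
        (Finset.univ.filter fun j => G j = d).card) →
      ∃ κ : ℝ, 0 < κ ∧ ∀ᶠ T : ℝ in atTop, ∀ (S : Finset (Fin m × ℕ)) (σ : Fin m × ℕ → Fin n × ℕ),
        Set.InjOn σ S → (∀ x ∈ S, x ∈ pts F T ∧ σ x ∈ pts G T ∧
          |pos G (σ x) - pos F x| ≤ κ / Real.log T) →
        κ * (T * Real.log T) ≤ ((pts F T).ncard : ℝ) + (pts G T).ncard - 2 * S.card := by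
  have tw := Pool.Agent.Y726.TW.tw Pool.Agent.Y726.TM.tm
  refine ⟨fun D hD => ?_, fun m n F G hF hG hne => ?_⟩
  · filter_upwards [Pool.Agent.K7.H54.AF.main tw Pool.Agent.Y762.AF.Cr1.cr1
      Pool.Agent.Y474.CR2.cr2 D hD] with a ha
    filter_upwards [ha] with T hT w
    have e : ∀ d : ℝ × ℝ, ∀ t : ℝ, win d (2 * Real.pi * a / Real.log T) t =
        Pool.Agent.K7.H54.AF.dN a T d t := fun d t =>
      Pool.Agent.K7.H54.AF.win_eq a T d t
    simp only [e]
    exact hT w
  · obtain ⟨κ, hκ, h⟩ := Pool.Agent.K7.H54.AF.matched tw Pool.Agent.Y762.AF.Cr1.cr1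
      Pool.Agent.Y474.CR2.cr2 F G hF hG hne
    refine ⟨κ, hκ, ?_⟩
    filter_upwards [h] with T hT S σ hσ hS
    have h1 : (pts F T).ncard = (Pool.Agent.K7.H54.AF.pts F T).card :=
      Pool.Agent.K7.H54.AF.ncard_pts F hF T
    have h2 : (pts G T).ncard = (Pool.Agent.K7.H54.AF.pts G T).card :=
      Pool.Agent.K7.H54.AF.ncard_pts G hG T
    rw [h1, h2]
    exact hT S σ hσ fun x hx => ⟨(hS x hx).1.1, (hS x hx).1.2, (hS x hx).2.1.1, (hS x hx).2.1.2,
      (hS x hx).2.2⟩

end Pool.Agent.Results.MP_0ec205_nt.IndependentAffineCopies
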