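import Pool.Agent.K7.H75.LC.FI

/-!
# Persistent relations between few ordinates split into narrow clusters of coefficient sum zero

Let `0 < γ_1 ≤ γ_2 ≤ …` be the ordinates of the nontrivial zeros of the zeta function, with
multiplicity.  No hypothesis is assumed.  Fix the number `k` of terms and the height `H`.  Consider the
relations `∑ c_i γ_{n+m_i} = b` with `k` terms and integer coefficients `|c_i| ≤ H`, where the shifts
`m_i ≤ L` are arbitrary, `L log L ≤ B log N`, and let `log L ≤ (log D)^2`.  If `D` is large, then for all
but a small proportion of the `n ≤ N` all the relations which hold at the place `n`, even only up to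
`ε √(log D)` mean spacings, split into clusters: the indices `1, …, k` are the disjoint union of classes
such that the shifts of a class differ by less than `D` and the coefficients of each class have sum `0`.
In particular the coefficients of such a relation have sum `0`, and each shift with nonzero coefficient
is near another one.  The relation `γ_{n+1} - γ_n = γ_{n+m+1} - γ_{n+m}` is of the excepted kind.

Idea of the proof.  By the pigeonhole principle there is a scale `E`, `E ≤ D ≤ E^C`, such that
no difference of two shifts lies between `E` and `E^{C'}`, where `C'` is a large constant.  The shifts at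
distance at most `E` form classes.  For coefficients of sum `0` the combination of the ordinates
following the height `t` is a combination of fluctuations of numbers of zeros in windows; the
windows ending in the same class have fluctuations which differ in mean square by `O(log E)` only.  The
combination of the representatives, with the class sums as coefficients, has logarithmic energy at
least `C' log E` times the square of the largest class sum, and obeys a normal law uniformly.
One passes to the indices `n` by means of shifted relations, and a general relation is compared with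
its translates, which leads to relations of sum `0`.
-/

set_option autoImplicit false

namespace Pool.Agent.Results.MP_0ec205_nt.PersistentRelations

/-- multiplicity of `s` as a zero of the Riemann zeta function (order of vanishing at `s`) -/
noncomputable def zmult (s : ℂ) : ℕ := analyticOrderNatAt riemannZeta s

/-- the number of nontrivial zeros of `ζ` with ordinate in `(0, t]`, with multiplicity -/
noncomputable def NZ (t : ℝ) : ℕ :=
  ∑ᶠ s ∈ {s : ℂ | riemannZeta s = 0 ∧ 0 < s.re ∧ s.re < 1 ∧ 0 < s.im ∧ s.im ≤ t}, zmult s

/-- for `n ≥ 1`: the `n`-th positive ordinate `γ n` of a nontrivial zero of `ζ`, the ordinates being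
listed in nondecreasing order and repeated according to multiplicity -/
noncomputable def γ (n : ℕ) : ℝ := sInf {t : ℝ | n ≤ NZ t}

/-- The classes of the partition of the index set `{1, …, k}` given by `π` (`i` and `j` are in the same
class if `π i = π j`) are narrow: the shifts `m_i` of a class differ by less than `D`. -/
def Narrow {k : ℕ} (m : Fin k → ℕ) (D : ℕ) (π : Fin k → Fin k) : Prop :=
  ∀ i j, π i = π j → |(m i : ℝ) - m j| < D

/-- **Theorem** (no hypothesis).  For all `k`, `H`, `B` and `η > 0` there are `ε > 0` and `D₀` such that
for all `D ≥ D₀`, `L ≥ D` and `N ≥ 1` with `L log L ≤ B log N` and `log L ≤ (log D)^2` and all shifts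
`m_1, …, m_k ≤ L`:
(1) let `c_1, …, c_k` be real numbers such that every partition of the indices into classes on which the
shifts differ by less than `D` has a class whose coefficients have a sum of absolute value at least `1` and
at least `max |c_i| / H`, and let `b` be real; then at most `η N` of the indices `n ≤ N` satisfy
`|∑ c_i γ_{n+m_i} - b| ≤ ε √(log D) / log γ_n`;
(2) for all but at most `η N` of the indices `n ≤ N`, all the integer vectors `c` of height at most `H`
with `|∑ c_i γ_{n+m_i} - b(c)| ≤ ε √(log D) / log γ_n` admit a partition of the indices into classes on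
which the shifts differ by less than `D` and the coefficients have sum `0` (`b` an arbitrary real function
of `c`). -/
theorem result (k H : ℕ) (B η : ℝ) (hη : 0 < η) : ∃ (ε : ℝ) (D₀ : ℕ), 0 < ε ∧
    ∀ D L N : ℕ, D₀ ≤ D → D ≤ L → 1 ≤ N → L * Real.log L ≤ B * Real.log N →
    Real.log L ≤ Real.log D ^ 2 → ∀ m : Fin k → ℕ, (∀ i, m i ≤ L) →
    (∀ (c : Fin k → ℝ) (b : ℝ),
      (∀ π : Fin k → Fin k, Narrow m D π → ∃ l, 1 ≤ |∑ i with π i = l, c i| ∧
        ∀ i, |c i| ≤ H * |∑ i with π i = l, c i|) →
      ({n : ℕ | 1 ≤ n ∧ n ≤ N ∧
        |∑ i, c i * γ (n + m i) - b| ≤ ε * Real.sqrt (Real.log D) / Real.log (γ n)}.ncard : ℝ) ≤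
        η * N) ∧
    (∀ b : (Fin k → ℤ) → ℝ,
      ({n : ℕ | 1 ≤ n ∧ n ≤ N ∧ ∃ c : Fin k → ℤ, (∀ i, |c i| ≤ H) ∧
        |∑ i, (c i : ℝ) * γ (n + m i) - b c| ≤ ε * Real.sqrt (Real.log D) / Real.log (γ n) ∧
        ¬ ∃ π : Fin k → Fin k, Narrow m D π ∧ ∀ l, ∑ i with π i = l, c i = 0}.ncard : ℝ) ≤
        η * N) := by
  obtain ⟨ε, D₀, hε, h⟩ := Pool.Agent.K7.H75.LC.fin_both k H B η hη
  exact ⟨ε, D₀, hε, h⟩

end Pool.Agent.Results.MP_0ec205_nt.PersistentRelations
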